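import Mathlib

set_option autoImplicit false

/-!
Packing unit discs in a square: the plain hexagonal packing shows that
`√12 * n > s_n ^ 2 - (3 + √3) * s_n + 2 + 2 * √3` for every `n ≥ 1`, so that equality never holds.
-/

namespace Pool.Agent.Results.MP_77b5a8_co.NoEquality

/-- The closed axis-parallel square `[0, s] × [0, s]` of side length `s`. -/
def square (s : ℝ) : Set (EuclideanSpace ℝ (Fin 2)) := {x | ∀ i, 0 ≤ x i ∧ x i ≤ s}

/-- `n` nonoverlapping closed unit discs fit into a square of side length `s`. -/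
def Packs (n : ℕ) (s : ℝ) : Prop :=
  ∃ p : Fin n → EuclideanSpace ℝ (Fin 2),
    (∀ i, Metric.closedBall (p i) 1 ⊆ square s) ∧
    ∀ i j, i ≠ j → Disjoint (interior (Metric.closedBall (p i) 1))
      (interior (Metric.closedBall (p j) 1))

/-- `s_n`: the minimal side length of a square containing `n` nonoverlapping unit discs. -/
noncomputable def minSide (n : ℕ) : ℝ := sInf {s : ℝ | Packs n s}

/-- `F(s) = s ^ 2 - (3 + √3) s + 2 + 2 √3`. -/
noncomputable def F (s : ℝ) : ℝ := s ^ 2 - (3 + Real.sqrt 3) * s + 2 + 2 * Real.sqrt 3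

lemma closedBall_subset_iff (p : EuclideanSpace ℝ (Fin 2)) (s : ℝ) :
    Metric.closedBall p 1 ⊆ square s ↔ ∀ i, 1 ≤ p i ∧ p i ≤ s - 1 := by
  constructor
  · intro h i
    have h1 : p + EuclideanSpace.single i (1 : ℝ) ∈ square s := by
      apply h
      rw [Metric.mem_closedBall, dist_eq_norm]
      simp
    have h2 : p - EuclideanSpace.single i (1 : ℝ) ∈ square s := by
      apply h
      rw [Metric.mem_closedBall, dist_eq_norm]
      simp
    have h3 := (h1 i).2
    have h4 := (h2 i).1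
    simp at h3 h4
    constructor <;> linarith
  · intro h x hx i
    have h1 : |x i - p i| ≤ 1 := by
      have h2 : ‖(x - p) i‖ ≤ ‖x - p‖ := PiLp.norm_apply_le (x - p) i
      have h3 : ‖x - p‖ ≤ 1 := by rw [← dist_eq_norm]; exact hx
      have h4 : (x - p) i = x i - p i := rfl
      rw [h4, Real.norm_eq_abs] at h2
      linarith
    have h5 := abs_le.1 h1
    have h6 := h i
    constructor <;> linarith [h5.1, h5.2, h6.1, h6.2]

lemma disjoint_iff (p q : EuclideanSpace ℝ (Fin 2)) :
    Disjoint (interior (Metric.closedBall p 1)) (interior (Metric.closedBall q 1)) ↔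
      2 ≤ dist p q := by
  rw [interior_closedBall _ (by norm_num), interior_closedBall _ (by norm_num)]
  rw [disjoint_ball_ball_iff (by norm_num) (by norm_num)]
  norm_num

lemma packs_iff (n : ℕ) (s : ℝ) : Packs n s ↔
    ∃ p : Fin n → EuclideanSpace ℝ (Fin 2), (∀ i c, 1 ≤ p i c ∧ p i c ≤ s - 1) ∧
      ∀ i j, i ≠ j → 2 ≤ dist (p i) (p j) := by
  unfold Packs
  simp only [closedBall_subset_iff, disjoint_iff]

/-- The hexagonal packing. -/
lemma hex (n : ℕ) (s : ℝ) (hs : 2 ≤ s) (hn : Real.sqrt 12 * ((n : ℝ) - 1) ≤ (s - 2) ^ 2) :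
    Packs n s := by
  rw [packs_iff]
  have h3 : (0 : ℝ) < Real.sqrt 3 := Real.sqrt_pos.2 (by norm_num)
  have h33 : Real.sqrt 3 * Real.sqrt 3 = 3 := Real.mul_self_sqrt (by norm_num)
  have h12 : Real.sqrt 12 = 2 * Real.sqrt 3 := by
    rw [show (12 : ℝ) = 2 ^ 2 * 3 by norm_num, Real.sqrt_mul (by norm_num),
      Real.sqrt_sq (by norm_num)]
  obtain ⟨K, hK1, hK2, hKpos⟩ : ∃ K : ℕ, (s - 2) / Real.sqrt 3 < K ∧
      (K : ℝ) - 1 ≤ (s - 2) / Real.sqrt 3 ∧ 1 ≤ K := by
    refine ⟨⌊(s - 2) / Real.sqrt 3⌋₊ + 1, ?_, ?_, by omega⟩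
    · push_cast; exact Nat.lt_floor_add_one _
    · push_cast
      have := Nat.floor_le (show 0 ≤ (s - 2) / Real.sqrt 3 from div_nonneg (by linarith) h3.le)
      linarith
  obtain ⟨m1, m2, hm1, hm2, hle, hsum, hm1pos⟩ : ∃ m1 m2 : ℕ, 2 * (m1 : ℝ) ≤ s ∧
      2 * (m2 : ℝ) ≤ s - 1 ∧ m2 ≤ m1 ∧ s - 2 < (m1 : ℝ) + m2 ∧ 1 ≤ m1 := by
    set f := ⌊s⌋₊ with hf
    have hf1 : (f : ℝ) ≤ s := Nat.floor_le (by linarith)
    have hf2 : s < f + 1 := Nat.lt_floor_add_one s
    have hf3 : 2 ≤ f := Nat.le_floor (by exact_mod_cast hs)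
    refine ⟨f / 2, (f - 1) / 2, ?_, ?_, by omega, ?_, by omega⟩
    · have : 2 * (f / 2) ≤ f := by omega
      have : (2 * ((f / 2 : ℕ) : ℝ)) ≤ f := by exact_mod_cast this
      linarith
    · have : 2 * ((f - 1) / 2) + 1 ≤ f := by omega
      have : (2 * (((f - 1) / 2 : ℕ) : ℝ)) + 1 ≤ f := by exact_mod_cast this
      linarith
    · have : f / 2 + (f - 1) / 2 + 1 = f := by omega
      have : (((f / 2 : ℕ) : ℝ)) + (((f - 1) / 2 : ℕ) : ℝ) + 1 = f := by exact_mod_cast this
      linarith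
  set M := m1 + m2 with hM
  have hMpos : 0 < M := by omega
  -- the counting inequality
  have hcount : ∀ k : ℕ, k < n → 2 * k < K * M := by
    intro k hk
    have hk' : (k : ℝ) ≤ (n : ℝ) - 1 := by
      have : k + 1 ≤ n := hk
      have : ((k : ℝ) + 1) ≤ n := by exact_mod_cast this
      linarith
    have e1 : (s - 2) < Real.sqrt 3 * K := by
      rw [div_lt_iff₀ h3] at hK1; linarith
    have e2 : (s - 2) * (s - 2) < (Real.sqrt 3 * K) * ((m1 : ℝ) + m2) := by
      have h0 : 0 ≤ s - 2 := by linarith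
      have hKM : 0 < Real.sqrt 3 * K := by positivity
      calc (s - 2) * (s - 2) ≤ (Real.sqrt 3 * K) * (s - 2) :=
            mul_le_mul_of_nonneg_right e1.le h0
        _ < (Real.sqrt 3 * K) * ((m1 : ℝ) + m2) := mul_lt_mul_of_pos_left hsum hKM
    have e3 : 2 * Real.sqrt 3 * k < (Real.sqrt 3 * K) * ((m1 : ℝ) + m2) := by
      calc 2 * Real.sqrt 3 * k ≤ 2 * Real.sqrt 3 * ((n : ℝ) - 1) :=
            mul_le_mul_of_nonneg_left hk' (by positivity)
        _ ≤ (s - 2) ^ 2 := by rw [← h12]; exact hn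
        _ = (s - 2) * (s - 2) := by ring
        _ < _ := e2
    have e4 : 2 * (k : ℝ) < K * ((m1 : ℝ) + m2) := by
      have e5 : Real.sqrt 3 * (2 * (k : ℝ)) < Real.sqrt 3 * (K * ((m1 : ℝ) + m2)) := by
        calc Real.sqrt 3 * (2 * (k : ℝ)) = 2 * Real.sqrt 3 * k := by ring
          _ < (Real.sqrt 3 * K) * ((m1 : ℝ) + m2) := e3
          _ = _ := by ring
      exact lt_of_mul_lt_mul_left e5 h3.le
    have : ((2 * k : ℕ) : ℝ) < ((K * M : ℕ) : ℝ) := by
      rw [hM]; push_cast; exact e4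
    exact_mod_cast this
  -- rows and columns
  let I : ℕ → ℕ := fun k => if k % M < m1 then 2 * (k / M) else 2 * (k / M) + 1
  let X : ℕ → ℕ := fun k => if k % M < m1 then 2 * (k % M) else 2 * (k % M - m1) + 1
  have hIX : ∀ k, I k % 2 = X k % 2 := by
    intro k
    simp only [I, X]
    split_ifs <;> omega
  have hI : ∀ k, k < n → I k < K := by
    intro k hk
    have h1 := hcount k hk
    have h2 : M * (k / M) + k % M = k := Nat.div_add_mod k M
    simp only [I]
    split_ifs with h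
    · by_contra hc
      push Not at hc
      have : K * M ≤ 2 * (k / M) * M := Nat.mul_le_mul_right M hc
      have e : 2 * (k / M) * M = 2 * (M * (k / M)) := by ring
      rw [e] at this
      linarith [Nat.zero_le (k % M)]
    · by_contra hc
      push Not at hc
      have : K * M ≤ (2 * (k / M) + 1) * M := Nat.mul_le_mul_right M hc
      have e : (2 * (k / M) + 1) * M = 2 * (M * (k / M)) + M := by ring
      rw [e] at this
      have : M ≤ 2 * (k % M) := by omega
      linarith
  have hX : ∀ k, (X k : ℝ) ≤ s - 2 := by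
    intro k
    have h1 : k % M < M := Nat.mod_lt _ hMpos
    simp only [X]
    split_ifs with h
    · have : 2 * (k % M) + 2 ≤ 2 * m1 := by omega
      have : (2 * ((k % M : ℕ) : ℝ)) + 2 ≤ 2 * m1 := by exact_mod_cast this
      push_cast
      linarith
    · have : 2 * (k % M - m1) + 2 ≤ 2 * m2 := by omega
      have : (2 * ((k % M - m1 : ℕ) : ℝ)) + 2 ≤ 2 * m2 := by exact_mod_cast this
      have h5 : (((2 * (k % M - m1) + 1 : ℕ) : ℝ)) = 2 * ((k % M - m1 : ℕ) : ℝ) + 1 := by
        push_cast; ring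
      rw [h5]
      linarith
  have hinj : ∀ k l, I k = I l → X k = X l → k = l := by
    intro k l h1 h2
    have hk : M * (k / M) + k % M = k := Nat.div_add_mod k M
    have hl : M * (l / M) + l % M = l := Nat.div_add_mod l M
    simp only [I, X] at h1 h2
    split_ifs at h1 h2 with ha hb hb
    · have e1 : k / M = l / M := by omega
      have e2 : k % M = l % M := by omega
      rw [← hk, ← hl, e1, e2]
    · omega
    · omega
    · have e1 : k / M = l / M := by omega
      have e2 : k % M = l % M := by omega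
      rw [← hk, ← hl, e1, e2]
  refine ⟨fun k => WithLp.toLp 2 ![1 + (X k : ℝ), 1 + Real.sqrt 3 * (I k : ℝ)], ?_, ?_⟩
  · intro k c
    have hx0 : (0 : ℝ) ≤ X k := by positivity
    have hi0 : (0 : ℝ) ≤ Real.sqrt 3 * I k := by positivity
    have hx1 := hX k
    have hi1 : Real.sqrt 3 * I k ≤ s - 2 := by
      have h1 : I k + 1 ≤ K := hI k k.2
      have h2 : (I k : ℝ) ≤ (K : ℝ) - 1 := by
        have : ((I k : ℝ) + 1) ≤ K := by exact_mod_cast h1
        linarith
      have h4 : (I k : ℝ) ≤ (s - 2) / Real.sqrt 3 := h2.trans hK2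
      rw [le_div_iff₀ h3] at h4
      linarith
    fin_cases c
    · simp only [Fin.zero_eta, Matrix.cons_val_zero]
      constructor <;> linarith
    · simp only [Fin.mk_one, Matrix.cons_val_one, Matrix.cons_val_zero]
      constructor <;> linarith
  · intro k l hkl
    have hne : ¬ (I k = I l ∧ X k = X l) := fun h => hkl (Fin.ext (hinj _ _ h.1 h.2))
    rw [EuclideanSpace.dist_eq]
    apply Real.le_sqrt_of_sq_le
    simp only [Fin.sum_univ_two, Real.dist_eq, sq_abs, Matrix.cons_val_zero, Matrix.cons_val_one]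
    have hint : (4 : ℤ) ≤ ((X k : ℤ) - X l) ^ 2 + 3 * ((I k : ℤ) - I l) ^ 2 := by
      have p1 := hIX k
      have p2 := hIX l
      generalize X k = a at *
      generalize X l = b at *
      generalize I k = c at *
      generalize I l = d at *
      by_cases hcd : c = d
      · subst hcd
        have hab : a ≠ b := fun h => hne ⟨rfl, h⟩
        have : (2 : ℤ) ≤ (a : ℤ) - b ∨ (a : ℤ) - b ≤ -2 := by omega
        rcases this with h | h <;> nlinarith
      · by_cases hcd1 : ((c : ℤ) - d) ^ 2 = 1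
        · have h1 : (c : ℤ) - d = 1 ∨ (c : ℤ) - d = -1 := by
            have h0 : ((c : ℤ) - d - 1) * ((c : ℤ) - d + 1) = 0 := by linear_combination hcd1
            rcases mul_eq_zero.1 h0 with h | h <;> omega
          have hab : (a : ℤ) - b ≠ 0 := by omega
          have : 1 ≤ ((a : ℤ) - b) ^ 2 := by
            have := sq_nonneg ((a : ℤ) - b)
            have h2 : ((a : ℤ) - b) ^ 2 ≠ 0 := pow_ne_zero 2 hab
            omega
          nlinarith
        · have h2 : (2 : ℤ) ≤ (c : ℤ) - d ∨ (c : ℤ) - d ≤ -2 := by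
            by_contra hc
            push Not at hc
            have h3 : (c : ℤ) - d = 1 ∨ (c : ℤ) - d = -1 := by omega
            rcases h3 with h | h <;> rw [h] at hcd1 <;> norm_num at hcd1
          have h5 := sq_nonneg ((a : ℤ) - b)
          rcases h2 with h | h <;> nlinarith
    have hreal : (4 : ℝ) ≤ ((X k : ℝ) - X l) ^ 2 + 3 * ((I k : ℝ) - I l) ^ 2 := by
      exact_mod_cast hint
    have e : (1 + Real.sqrt 3 * (I k : ℝ) - (1 + Real.sqrt 3 * (I l : ℝ))) ^ 2 =
        3 * ((I k : ℝ) - I l) ^ 2 := by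
      calc _ = (Real.sqrt 3 * Real.sqrt 3) * ((I k : ℝ) - I l) ^ 2 := by ring
        _ = _ := by rw [h33]
    rw [e]
    calc (2 : ℝ) ^ 2 = 4 := by norm_num
      _ ≤ _ := hreal
      _ = _ := by ring

lemma two_le_of_packs {n : ℕ} (hn : 1 ≤ n) {s : ℝ} (h : Packs n s) : 2 ≤ s := by
  rw [packs_iff] at h
  obtain ⟨p, hp, -⟩ := h
  have := hp ⟨0, hn⟩ 0
  linarith [this.1, this.2]

lemma exists_packs (n : ℕ) : ∃ s, Packs n s := by
  have h12 : 0 ≤ Real.sqrt 12 := Real.sqrt_nonneg _
  refine ⟨2 + (Real.sqrt 12 * n + 1), hex n _ ?_ ?_⟩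
  · have : 0 ≤ Real.sqrt 12 * n := by positivity
    linarith
  · have : 0 ≤ Real.sqrt 12 * n := by positivity
    nlinarith

/-- The minimum is attained. -/
lemma isLeast_minSide (n : ℕ) (hn : 1 ≤ n) : IsLeast {s : ℝ | Packs n s} (minSide n) := by
  obtain ⟨S, hS⟩ := exists_packs n
  -- compact set of pairs
  let T : Set (ℝ × (Fin n → EuclideanSpace ℝ (Fin 2))) :=
    {y | (y.1 ≤ S) ∧ (∀ i c, 1 ≤ y.2 i c ∧ y.2 i c ≤ y.1 - 1) ∧
      ∀ i j, i ≠ j → 2 ≤ dist (y.2 i) (y.2 j)}
  have hclosed : IsClosed T := by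
    have c1 : ∀ i (c : Fin 2), Continuous
        fun y : ℝ × (Fin n → EuclideanSpace ℝ (Fin 2)) => y.2 i c := by
      intro i c
      exact (EuclideanSpace.proj c).continuous.comp ((continuous_apply i).comp continuous_snd)
    have c2 : ∀ i, Continuous
        fun y : ℝ × (Fin n → EuclideanSpace ℝ (Fin 2)) => y.2 i := by
      intro i
      exact (continuous_apply i).comp continuous_snd
    apply IsClosed.inter
    · exact isClosed_le continuous_fst continuous_const
    apply IsClosed.inter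
    · have : {y : ℝ × (Fin n → EuclideanSpace ℝ (Fin 2)) |
          ∀ i c, 1 ≤ y.2 i c ∧ y.2 i c ≤ y.1 - 1} =
          ⋂ i, ⋂ c, ({y | 1 ≤ y.2 i c} ∩ {y | y.2 i c ≤ y.1 - 1}) := by
        ext y; simp
      change IsClosed {y : ℝ × (Fin n → EuclideanSpace ℝ (Fin 2)) |
          ∀ i c, 1 ≤ y.2 i c ∧ y.2 i c ≤ y.1 - 1}
      rw [this]
      refine isClosed_iInter fun i => isClosed_iInter fun c => IsClosed.inter ?_ ?_
      · exact isClosed_le continuous_const (c1 i c)
      · exact isClosed_le (c1 i c) (continuous_fst.sub continuous_const)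
    · have : {y : ℝ × (Fin n → EuclideanSpace ℝ (Fin 2)) |
          ∀ i j, i ≠ j → 2 ≤ dist (y.2 i) (y.2 j)} =
          ⋂ i, ⋂ j, ⋂ (_ : i ≠ j), {y | 2 ≤ dist (y.2 i) (y.2 j)} := by
        ext y; simp
      change IsClosed {y : ℝ × (Fin n → EuclideanSpace ℝ (Fin 2)) |
          ∀ i j, i ≠ j → 2 ≤ dist (y.2 i) (y.2 j)}
      rw [this]
      refine isClosed_iInter fun i => isClosed_iInter fun j => isClosed_iInter fun _ => ?_
      exact isClosed_le continuous_const ((c2 i).dist (c2 j))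
  have hbdd : Bornology.IsBounded T := by
    rw [Metric.isBounded_iff_subset_closedBall 0]
    refine ⟨|S| + |S| + |S|, ?_⟩
    rintro ⟨s, p⟩ ⟨hs1, hs2, -⟩
    simp only at hs1 hs2
    have hs3 : 2 ≤ s := by have := hs2 ⟨0, hn⟩ 0; linarith [this.1, this.2]
    have hS0 : S ≤ |S| := le_abs_self S
    rw [mem_closedBall_zero_iff, Prod.norm_def]
    apply max_le
    · rw [Real.norm_eq_abs, abs_of_nonneg (by linarith)]
      simp only
      linarith [abs_nonneg S]
    · rw [pi_norm_le_iff_of_nonneg (by positivity)]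
      intro i
      simp only
      have h0 := hs2 i 0
      have h1 := hs2 i 1
      rw [EuclideanSpace.norm_eq]
      apply Real.sqrt_le_iff.2
      constructor
      · positivity
      simp only [Fin.sum_univ_two, Real.norm_eq_abs, sq_abs]
      have a0 : 0 ≤ p i 0 := by linarith [h0.1]
      have a1 : 0 ≤ p i 1 := by linarith [h1.1]
      have b0 : p i 0 ≤ |S| := by linarith [h0.2]
      have b1 : p i 1 ≤ |S| := by linarith [h1.2]
      nlinarith [abs_nonneg S]
  have hcomp : IsCompact T := Metric.isCompact_of_isClosed_isBounded hclosed hbdd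
  have hne : T.Nonempty := by
    obtain ⟨p, hp1, hp2⟩ := (packs_iff n S).1 hS
    exact ⟨(S, p), le_refl _, hp1, hp2⟩
  obtain ⟨⟨s, p⟩, hmem, hmin⟩ := hcomp.exists_isMinOn hne continuous_fst.continuousOn
  have hs : Packs n s := (packs_iff n s).2 ⟨p, hmem.2.1, hmem.2.2⟩
  have hleast : IsLeast {s : ℝ | Packs n s} s := by
    refine ⟨hs, fun t ht => ?_⟩
    by_contra hlt
    push Not at hlt
    obtain ⟨p', hp1, hp2⟩ := (packs_iff n t).1 ht
    have hsS : s ≤ S := hmem.1
    have : (t, p') ∈ T := ⟨by simp only; linarith, hp1, hp2⟩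
    have h2 := hmin this
    simp only [Set.mem_ofPred_eq] at h2
    linarith
  have : minSide n = s := hleast.csInf_eq
  rw [this]
  exact hleast

lemma main (n : ℕ) (hn : 1 ≤ n) : F (minSide n) < Real.sqrt 12 * n := by
  obtain ⟨hmem, hlow⟩ := isLeast_minSide n hn
  set s := minSide n with hs
  have hs2 : 2 ≤ s := two_le_of_packs hn hmem
  have h3 : (1 : ℝ) < Real.sqrt 3 := by
    rw [Real.lt_sqrt (by norm_num)]; norm_num
  have h12 : (0 : ℝ) < Real.sqrt 12 := Real.sqrt_pos.2 (by norm_num)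
  have hn1 : (1 : ℝ) ≤ n := by exact_mod_cast hn
  have hF : F s = (s - 2) ^ 2 - (Real.sqrt 3 - 1) * (s - 2) := by unfold F; ring
  by_contra hcon
  push Not at hcon
  rw [hF] at hcon
  have hs2' : 2 < s := by
    rcases hs2.lt_or_eq with h | h
    · exact h
    · exfalso
      rw [← h] at hcon
      have : 0 < Real.sqrt 12 * n := by positivity
      norm_num at hcon
      linarith
  have hlt : Real.sqrt 12 * ((n : ℝ) - 1) < (s - 2) ^ 2 := by
    have : 0 ≤ (Real.sqrt 3 - 1) * (s - 2) := mul_nonneg (by linarith) (by linarith)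
    linarith
  -- a slightly smaller square
  set a : ℝ := Real.sqrt 12 * ((n : ℝ) - 1) with ha
  have ha0 : 0 ≤ a := mul_nonneg h12.le (by linarith)
  have hsq : Real.sqrt a < s - 2 := by
    rw [Real.sqrt_lt' (by linarith)]
    exact hlt
  have hp : Packs n (2 + Real.sqrt a) := by
    apply hex n _ (by linarith [Real.sqrt_nonneg a])
    have : (2 + Real.sqrt a - 2) ^ 2 = a := by
      rw [add_sub_cancel_left, Real.sq_sqrt ha0]
    rw [this]
  have := hlow hp
  linarith

/-- The minimal side length `s_n` is attained for every `n ≥ 1`, one has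
`F(s_n) < √12 * n` for every `n ≥ 1`, and hence the equality `√12 * n = F(s_n)` does not hold for
infinitely many `n ≥ 1`. -/
theorem result :
    (∀ n : ℕ, 1 ≤ n → IsLeast {s : ℝ | Packs n s} (minSide n)) ∧
    (∀ n : ℕ, 1 ≤ n → F (minSide n) < Real.sqrt 12 * n) ∧
    ¬ {n : ℕ | 1 ≤ n ∧ Real.sqrt 12 * n = F (minSide n)}.Infinite := by
  refine ⟨isLeast_minSide, main, ?_⟩
  intro h
  obtain ⟨n, hn, hn'⟩ := h.nonempty
  exact (main n hn).ne' hn'

end Pool.Agent.Results.MP_77b5a8_co.NoEquality
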